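import Pool.Agent.MNT.StmtsA

set_option autoImplicit false

/-!
# Row CNT: double counting of pairs
-/

namespace Pool.Agent.MNT.H3

open Finset

variable {P : Type} [Fintype P] [DecidableEq P]

theorem pair_sub (p q : P) (d : Finset P) : ({p, q} : Finset P) ⊆ d ↔ p ∈ d ∧ q ∈ d := by
  rw [Finset.insert_subset_iff, Finset.singleton_subset_iff]

theorem pairs_one (A d : Finset P) (x : ℝ) :
    ∑ p ∈ A, ∑ q ∈ A.erase p, (if ({p, q} : Finset P) ⊆ d then x else 0) =
      x * ((d ∩ A).card * ((d ∩ A).card - 1)) := by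
  have h1 : ∀ p ∈ A, ∑ q ∈ A.erase p, (if ({p, q} : Finset P) ⊆ d then x else 0) =
      if p ∈ d then (((d ∩ A).card : ℝ) - 1) * x else 0 := by
    intro p hp
    by_cases hpd : p ∈ d
    · rw [if_pos hpd]
      have h2 : ∀ q ∈ A.erase p, (if ({p, q} : Finset P) ⊆ d then x else 0) =
          if q ∈ d then x else 0 := by
        intro q _
        simp only [pair_sub, hpd, true_and]
      rw [Finset.sum_congr rfl h2, ← Finset.sum_filter, Finset.sum_const, nsmul_eq_mul]
      have h3 : (A.erase p).filter (fun q => q ∈ d) = (d ∩ A).erase p := by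
        ext q
        simp only [Finset.mem_filter, Finset.mem_erase, Finset.mem_inter]
        tauto
      have h4 : p ∈ d ∩ A := Finset.mem_inter.2 ⟨hpd, hp⟩
      rw [h3, Finset.cast_card_erase_of_mem h4]
    · rw [if_neg hpd]
      refine Finset.sum_eq_zero fun q _ => ?_
      rw [if_neg]
      intro h
      exact hpd ((pair_sub p q d).1 h).1
  rw [Finset.sum_congr rfl h1, ← Finset.sum_filter, Finset.sum_const, nsmul_eq_mul]
  have h3 : A.filter (fun q => q ∈ d) = d ∩ A := by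
    ext q
    simp only [Finset.mem_filter, Finset.mem_inter]
    tauto
  rw [h3]
  ring

theorem cross_one (A A' d : Finset P) (x : ℝ) :
    ∑ p ∈ A, ∑ q ∈ A', (if ({p, q} : Finset P) ⊆ d then x else 0) =
      x * ((d ∩ A).card * (d ∩ A').card) := by
  have h0 : ∀ A : Finset P, A.filter (fun q => q ∈ d) = d ∩ A := by
    intro A
    ext q
    simp only [Finset.mem_filter, Finset.mem_inter]
    tauto
  have h1 : ∀ p ∈ A, ∑ q ∈ A', (if ({p, q} : Finset P) ⊆ d then x else 0) =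
      if p ∈ d then ((d ∩ A').card : ℝ) * x else 0 := by
    intro p _
    by_cases hpd : p ∈ d
    · rw [if_pos hpd]
      have h2 : ∀ q ∈ A', (if ({p, q} : Finset P) ⊆ d then x else 0) =
          if q ∈ d then x else 0 := by
        intro q _
        simp only [pair_sub, hpd, true_and]
      rw [Finset.sum_congr rfl h2, ← Finset.sum_filter, Finset.sum_const, nsmul_eq_mul, h0]
    · rw [if_neg hpd]
      refine Finset.sum_eq_zero fun q _ => ?_
      rw [if_neg]
      intro h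
      exact hpd ((pair_sub p q d).1 h).1
  rw [Finset.sum_congr rfl h1, ← Finset.sum_filter, Finset.sum_const, nsmul_eq_mul, h0]
  ring

theorem pairs_lev (Λ : Lam P) (A : Finset P) : pairs A (fun p q => Λ.lev {p, q}) =
    ∑ d ∈ Λ.V, Λ.l d * ((d ∩ A).card * ((d ∩ A).card - 1)) := by
  unfold pairs Lam.lev
  simp only [Finset.sum_filter]
  rw [Finset.sum_congr rfl fun p _ => Finset.sum_comm, Finset.sum_comm]
  exact Finset.sum_congr rfl fun d _ => pairs_one A d (Λ.l d)

theorem cross_lev (Λ : Lam P) (A A' : Finset P) : cross A A' (fun p q => Λ.lev {p, q}) =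
    ∑ d ∈ Λ.V, Λ.l d * ((d ∩ A).card * (d ∩ A').card) := by
  unfold cross Lam.lev
  simp only [Finset.sum_filter]
  rw [Finset.sum_congr rfl fun p _ => Finset.sum_comm, Finset.sum_comm]
  exact Finset.sum_congr rfl fun d _ => cross_one A A' d (Λ.l d)

/-- the difference of two sums -/
theorem sum_diff (A : Finset P) (B : P → Finset P) (δ δ' : P → P → ℝ) (e : ℝ) (he : 0 ≤ e)
    (h : ∀ p ∈ A, ∀ q ∈ B p, |δ p q - δ' p q| ≤ e) :
    |∑ p ∈ A, ∑ q ∈ B p, δ p q - ∑ p ∈ A, ∑ q ∈ B p, δ' p q| ≤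
      (Fintype.card P : ℝ) ^ 2 * e := by
  rw [← Finset.sum_sub_distrib]
  have hn : ∀ A : Finset P, (A.card : ℝ) ≤ Fintype.card P := fun A => by
    exact_mod_cast Finset.card_le_univ A
  calc |∑ p ∈ A, (∑ q ∈ B p, δ p q - ∑ q ∈ B p, δ' p q)|
      ≤ ∑ p ∈ A, |∑ q ∈ B p, δ p q - ∑ q ∈ B p, δ' p q| := Finset.abs_sum_le_sum_abs _ _
    _ ≤ ∑ _p ∈ A, (Fintype.card P : ℝ) * e := by
        refine Finset.sum_le_sum fun p hp => ?_
        rw [← Finset.sum_sub_distrib]
        calc |∑ q ∈ B p, (δ p q - δ' p q)| ≤ ∑ q ∈ B p, |δ p q - δ' p q| :=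
              Finset.abs_sum_le_sum_abs _ _
          _ ≤ ∑ _q ∈ B p, e := Finset.sum_le_sum fun q hq => h p hp q hq
          _ = ((B p).card : ℝ) * e := by rw [Finset.sum_const, nsmul_eq_mul]
          _ ≤ (Fintype.card P : ℝ) * e := mul_le_mul_of_nonneg_right (hn _) he
    _ = (A.card : ℝ) * ((Fintype.card P : ℝ) * e) := by rw [Finset.sum_const, nsmul_eq_mul]
    _ ≤ (Fintype.card P : ℝ) * ((Fintype.card P : ℝ) * e) :=
        mul_le_mul_of_nonneg_right (hn _) (mul_nonneg (Nat.cast_nonneg _) he)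
    _ = (Fintype.card P : ℝ) ^ 2 * e := by ring

/-- CNT -/
theorem cnt : CntStmt := by
  classical
  intro g P _ _ Λ R δ e₁ h
  -- `e₁ ≥ 0`
  have he : 0 ≤ e₁ := by
    have h1 := Λ.two_le _ Λ.top_mem
    obtain ⟨p, _, q, _, hpq⟩ := Finset.one_lt_card.1 (lt_of_lt_of_le one_lt_two h1)
    exact (abs_nonneg _).trans (h p q hpq)
  have hinst : ∀ p q : P, ({p, q} : Finset P) = ({p, q} : Finset P) := fun _ _ => rfl
  obtain ⟨n2, hn2⟩ : ∃ n2 : ℝ, n2 = (Fintype.card P : ℝ) ^ 2 := ⟨_, rfl⟩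
  have hn0 : 0 ≤ n2 := by rw [hn2]; positivity
  have hpairs : ∀ A : Finset P, |pairs A δ - pairs A (fun p q => Λ.lev {p, q})| ≤ n2 * e₁ := by
    intro A
    rw [hn2]
    refine sum_diff A (fun p => A.erase p) δ (fun p q => Λ.lev {p, q}) e₁ he ?_
    intro p _ q hq
    exact h p q (Finset.ne_of_mem_erase hq).symm
  have hcross : |cross R Rᶜ δ - cross R Rᶜ (fun p q => Λ.lev {p, q})| ≤ n2 * e₁ := by
    rw [hn2]
    refine sum_diff R (fun _ => Rᶜ) δ (fun p q => Λ.lev {p, q}) e₁ he ?_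
    intro p hp q hq
    refine h p q ?_
    rintro rfl
    exact (Finset.mem_compl.1 hq) hp
  have heq : ∑ d ∈ Λ.V, Λ.l d * w0 g (d ∩ R).card (d \ R).card =
      Phi g R (fun p q => Λ.lev {p, q}) := by
    unfold Phi
    rw [pairs_lev, cross_lev, pairs_lev, Finset.mul_sum, Finset.mul_sum, Finset.mul_sum,
      ← Finset.sum_sub_distrib, ← Finset.sum_add_distrib]
    refine Finset.sum_congr rfl fun d _ => ?_
    have h1 : d ∩ Rᶜ = d \ R := by
      ext q
      simp only [Finset.mem_inter, Finset.mem_compl, Finset.mem_sdiff]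
    rw [h1]
    unfold w0
    ring
  rw [heq]
  have hg : (0 : ℝ) ≤ g := Nat.cast_nonneg g
  have hgam0 : 0 ≤ gam g := by unfold gam; positivity
  have hgam : gam g / 2 ≤ 4 * g + 11 := by
    unfold gam
    rw [div_div, div_le_iff₀ (by positivity)]
    nlinarith
  have hd : Phi g R δ - Phi g R (fun p q => Λ.lev {p, q}) =
      (4 * (g : ℝ) + 8) / 2 * (pairs R δ - pairs R (fun p q => Λ.lev {p, q})) -
      (2 * g + 1) * (cross R Rᶜ δ - cross R Rᶜ (fun p q => Λ.lev {p, q})) +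
      gam g / 2 * (pairs Rᶜ δ - pairs Rᶜ (fun p q => Λ.lev {p, q})) := by
    unfold Phi
    ring
  rw [hd]
  have h1 := abs_le.1 (hpairs R)
  have h2 := abs_le.1 (hpairs Rᶜ)
  have h3 := abs_le.1 hcross
  have hx : 0 ≤ n2 * e₁ := mul_nonneg hn0 he
  have hfin : (8 * (g : ℝ) + 16) * (Fintype.card P : ℝ) ^ 2 * e₁ = (8 * (g : ℝ) + 16) * (n2 * e₁) := by
    rw [hn2]; ring
  rw [hfin]
  have c1 : 0 ≤ (4 * (g : ℝ) + 8) / 2 := by positivity
  have c2 : (0 : ℝ) ≤ 2 * g + 1 := by positivity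
  have c3 : 0 ≤ gam g / 2 := by positivity
  rw [abs_le]
  constructor
  · nlinarith [mul_le_mul_of_nonneg_left h1.1 c1, mul_le_mul_of_nonneg_left h3.2 c2,
      mul_le_mul_of_nonneg_left h2.1 c3, mul_le_mul_of_nonneg_right hgam hx]
  · nlinarith [mul_le_mul_of_nonneg_left h1.2 c1, mul_le_mul_of_nonneg_left h3.1 c2,
      mul_le_mul_of_nonneg_left h2.2 c3, mul_le_mul_of_nonneg_right hgam hx]

end Pool.Agent.MNT.H3
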